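import Mathlib

namespace Pool.Agent.H.MP_e76747_lc
open Matrix Finset

inductive F4 | o | i | w | x
  deriving DecidableEq, Fintype

namespace F4
def add : F4 → F4 → F4
  | o, a => a
  | a, o => a
  | i, i => o | i, w => x | i, x => w
  | w, i => x | w, w => o | w, x => i
  | x, i => w | x, w => i | x, x => o
def mul : F4 → F4 → F4
  | o, _ => o
  | i, a => a
  | w, o => o | w, i => w | w, w => x | w, x => i
  | x, o => o | x, i => x | x, w => i | x, x => w
def inv : F4 → F4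
  | o => o | i => i | w => x | x => w
instance : Add F4 := ⟨add⟩
instance : Mul F4 := ⟨mul⟩
instance : Neg F4 := ⟨id⟩
instance : Inv F4 := ⟨inv⟩
instance : Zero F4 := ⟨o⟩
instance : One F4 := ⟨i⟩
instance : Field F4 := Field.ofMinimalAxioms F4 (by decide) (by decide) (by decide) (by decide)
  (by decide) (by decide) (by decide) (by decide) (by decide) ⟨o, i, by decide⟩
theorem card : Fintype.card F4 = 4 := by decide

def tab : List (List F4) :=
[[i,o,o,i,o,o,o,o,o,o,o,o],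
 [o,o,o,o,i,o,o,i,o,o,o,o],
 [o,o,o,o,o,o,o,o,i,o,o,i],
 [i,o,o,i,i,o,o,i,i,o,o,i],
 [i,o,o,i,i,w,i,o,w,i,x,i],
 [i,o,o,i,w,w,i,x,w,x,w,o],
 [i,o,o,i,o,w,i,i,i,x,w,x],
 [i,o,o,i,x,i,x,o,w,o,o,w],
 [i,o,o,i,i,x,w,x,o,i,x,x],
 [i,o,o,i,w,o,o,w,o,w,i,i],
 [i,o,o,i,o,i,x,x,o,x,w,w],
 [i,o,o,i,i,i,x,w,w,w,i,x],
 [i,o,o,i,x,x,w,i,x,w,i,w],
 [i,o,o,i,x,o,o,x,i,w,i,o],
 [i,o,o,i,o,x,w,w,x,i,x,o],
 [i,o,o,i,x,w,i,w,x,o,o,x],
 [i,o,o,i,w,i,x,i,x,x,w,i],
 [i,o,o,i,w,x,w,o,i,i,x,w]]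

def rep : List (List F4) :=
[[o,i,o,o,i,x,x,x,i,w,w,i],
 [o,i,w,x,i,i,w,o,o,w,o,o],
 [o,i,i,i,o,w,w,x,w,w,w,w],
 [o,i,w,i,x,o,o,x,w,i,x,i],
 [o,i,x,i,i,i,o,x,i,w,i,i],
 [o,i,i,w,i,w,o,x,i,w,i,w],
 [o,i,o,o,w,i,o,x,w,w,w,i],
 [o,i,i,i,o,w,w,x,w,w,w,w],
 [o,i,o,o,i,x,x,x,i,w,w,i],
 [o,i,o,o,i,x,x,x,i,w,w,i],
 [o,i,x,i,i,i,o,x,i,w,i,i],
 [o,i,x,i,i,i,o,x,i,w,i,i],
 [o,i,o,o,i,x,x,x,i,w,w,i],
 [o,i,w,x,i,i,w,o,o,w,o,o],
 [o,i,o,o,i,x,x,x,i,w,w,i],
 [o,i,o,o,i,x,x,x,i,w,w,i],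
 [o,i,o,o,i,x,x,x,i,w,w,i],
 [o,i,o,o,i,x,x,x,i,w,w,i]]
end F4

def hh (j : ℕ) : Matrix (Fin 3 × Fin 2) (Fin 2) F4 :=
  fun p c => (F4.tab.getD j []).getD (4 * p.1.val + 2 * p.2.val + c.val) 0
def mm (j : ℕ) : Matrix (Fin 2) (Fin 3 × Fin 2) F4 :=
  fun c p => (F4.rep.getD j []).getD (6 * c.val + 2 * p.1.val + p.2.val) 0

def zr (r : List F4) (a b c d e f : F4) : Bool :=
  decide (a * r.getD 0 0 + b * r.getD 2 0 + (c * r.getD 4 0 + d * r.getD 6 0)
    + (e * r.getD 8 0 + f * r.getD 10 0) = 0) &&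
  decide (a * r.getD 1 0 + b * r.getD 3 0 + (c * r.getD 5 0 + d * r.getD 7 0)
    + (e * r.getD 9 0 + f * r.getD 11 0) = 0)

theorem big : ∀ a b c d e f : F4, (a = 0 ∧ b = 0 ∧ c = 0 ∧ d = 0 ∧ e = 0 ∧ f = 0) ∨
    ((List.range 18).filter fun j => zr (F4.tab.getD j []) a b c d e f).length ≤ 2 := by
  decide +kernel

theorem two (v : Fin 3 × Fin 2 → F4) (hv : v ≠ 0) :
    ((range 18).filter fun j => v ᵥ* hh j = 0).card ≤ 2 := by
  rcases big (v (0,0)) (v (0,1)) (v (1,0)) (v (1,1)) (v (2,0)) (v (2,1)) with h | h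
  · exfalso; apply hv
    funext ⟨a, b⟩
    fin_cases a <;> fin_cases b <;> simp [h]
  · refine le_trans (le_of_eq ?_) h
    rw [← List.toFinset_range, ← List.toFinset_card_of_nodup (List.nodup_range.filter _)]
    congr 1
    ext j
    simp only [mem_filter, List.mem_toFinset, List.mem_filter, zr, Bool.and_eq_true,
      decide_eq_true_eq]
    refine and_congr Iff.rfl ?_
    rw [funext_iff, Fin.forall_fin_two]
    simp only [vecMul, dotProduct, Fintype.sum_prod_type, Fin.sum_univ_three, Fin.sum_univ_two,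
      hh, Pi.zero_apply]
    rfl

theorem twoFin {n : ℕ} (hn : n ≤ 18) (v : Fin 3 × Fin 2 → F4) (hv : v ≠ 0) :
    ((univ : Finset (Fin n)).filter fun j : Fin n => v ᵥ* hh j.val = 0).card ≤ 2 := by
  refine le_trans ?_ (two v hv)
  refine card_le_card_of_injOn (fun j => j.val) ?_ (fun a _ b _ h => Fin.ext h)
  intro j hj
  simp only [coe_filter, mem_univ, true_and, Set.mem_ofPred_eq, mem_range] at hj ⊢
  exact ⟨lt_of_lt_of_le j.2 hn, hj⟩

theorem mds {n : ℕ} (hn : n ≤ 18) (e : Fin 3 → Fin n) (he : Function.Injective e) :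
    IsUnit (Matrix.of fun (a b : Fin 3 × Fin 2) => hh (e b.1) a b.2) := by
  rw [← Matrix.vecMul_injective_iff_isUnit]
  have key : ∀ v : Fin 3 × Fin 2 → F4,
      v ᵥ* (Matrix.of fun (a b : Fin 3 × Fin 2) => hh (e b.1) a b.2) = 0 → v = 0 := by
    intro v h
    by_contra hv
    have h2 := twoFin hn v hv
    have h3 : (univ.image e).card = 3 := by rw [card_image_of_injective _ he]; simp
    have : univ.image e ⊆ (univ : Finset (Fin n)).filter fun j : Fin n => v ᵥ* hh j.val = 0 := by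
      intro j hj
      obtain ⟨k, -, rfl⟩ := mem_image.1 hj
      simp only [mem_filter, mem_univ, true_and]
      funext c
      exact congrFun h (k, c)
    have := card_le_card this
    omega
  intro u v huv
  have := key (u - v) (by rw [sub_vecMul]; exact sub_eq_zero.2 huv)
  exact sub_eq_zero.1 this

theorem cardker (A : Matrix (Fin 2) (Fin 2) F4) :
    ((univ : Finset (Fin 2 → F4)).filter fun u => u ᵥ* A = 0).card = 4 ^ (2 - A.rank) := by
  classical
  have h1 := LinearMap.finrank_range_add_finrank_ker (vecMulLinear A)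
  have h2 : Module.finrank F4 (LinearMap.range (vecMulLinear A)) = A.rank := by
    rw [range_vecMulLinear, rank_eq_finrank_span_row]
  have h3 : Fintype.card (LinearMap.ker (vecMulLinear A)) =
      Fintype.card F4 ^ Module.finrank F4 (LinearMap.ker (vecMulLinear A)) :=
    Module.card_eq_pow_finrank
  rw [F4.card] at h3
  have h4 : Module.finrank F4 (Fin 2 → F4) = 2 := by simp
  rw [h2, h4] at h1
  have h5 : Module.finrank F4 (LinearMap.ker (vecMulLinear A)) = 2 - A.rank := by omega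
  rw [← h5, ← h3, Fintype.card_subtype]
  congr 1
  ext u
  simp

theorem rk2 (A : Matrix (Fin 2) (Fin 2) F4) : A.rank ≤ 2 := by
  simpa using A.rank_le_width

theorem lowone (A : Matrix (Fin 2) (Fin 2) F4) :
    6 ≤ 3 * A.rank + (((univ : Finset (Fin 2 → F4)).erase 0).filter fun u => u ᵥ* A = 0).card := by
  have h := cardker A
  have h2 := rk2 A
  have h3 : (((univ : Finset (Fin 2 → F4)).erase 0).filter fun u => u ᵥ* A = 0) =
      ((univ : Finset (Fin 2 → F4)).filter fun u => u ᵥ* A = 0).erase 0 := by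
    ext u; simp
  rw [h3, card_erase_of_mem (by simp), h]
  generalize A.rank = k at h2
  interval_cases k <;> norm_num

theorem upone (A : Matrix (Fin 2) (Fin 2) F4) (h : A.det = 0) : A.rank ≤ 1 := by
  obtain ⟨v, hv, h0⟩ := Matrix.exists_vecMul_eq_zero_iff.2 h
  have h1 := cardker A
  have h2 := rk2 A
  by_contra hc
  have h3 : A.rank = 2 := by omega
  rw [h3] at h1
  have : 1 < ((univ : Finset (Fin 2 → F4)).filter fun u => u ᵥ* A = 0).card :=
    one_lt_card.2 ⟨v, by simp [h0], 0, by simp, hv⟩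
  omega

theorem lower {n : ℕ} (hn : n ≤ 18) (i : Fin n) (M : Matrix (Fin 2) (Fin 3 × Fin 2) F4)
    (hM : IsUnit (M * hh i)) : 2 * (n - 1) ≤ ∑ j ∈ univ.erase i, (M * hh j).rank + 10 := by
  have h1 : ∑ j ∈ univ.erase i, 6 ≤ ∑ j ∈ univ.erase i, (3 * (M * hh j).rank +
      (((univ : Finset (Fin 2 → F4)).erase 0).filter fun u => u ᵥ* (M * hh (j : Fin n)) = 0).card) :=
    sum_le_sum fun j _ => lowone _
  rw [sum_add_distrib, ← mul_sum, sum_const, card_erase_of_mem (mem_univ _), card_univ,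
    Fintype.card_fin, smul_eq_mul] at h1
  have h2 : ∑ j ∈ univ.erase i,
      (((univ : Finset (Fin 2 → F4)).erase 0).filter fun u => u ᵥ* (M * hh (j : Fin n)) = 0).card
      = ∑ u ∈ (univ : Finset (Fin 2 → F4)).erase 0,
        ((univ.erase i).filter fun j : Fin n => u ᵥ* (M * hh j) = 0).card := by
    simp only [card_filter]
    exact sum_comm
  have h3 : ∑ u ∈ (univ : Finset (Fin 2 → F4)).erase 0,
        ((univ.erase i).filter fun j : Fin n => u ᵥ* (M * hh j) = 0).card ≤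
      ∑ u ∈ (univ : Finset (Fin 2 → F4)).erase 0, 2 := by
    refine sum_le_sum fun u hu => ?_
    have hu0 : u ≠ 0 := (mem_erase.1 hu).1
    have hv : u ᵥ* M ≠ 0 := by
      intro h
      apply hu0
      have hinj := Matrix.vecMul_injective_iff_isUnit.2 hM
      apply hinj
      simp only [← vecMul_vecMul, h, zero_vecMul]
    refine le_trans (card_le_card ?_) (twoFin hn _ hv)
    intro j hj
    simp only [mem_filter, mem_univ, true_and, vecMul_vecMul] at hj ⊢
    exact hj.2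
  rw [sum_const, card_erase_of_mem (mem_univ _), card_univ, Fintype.card_fun, F4.card,
    Fintype.card_fin, smul_eq_mul] at h3
  omega

def dd (i j : ℕ) : F4 := (mm i * hh j) 0 0 * (mm i * hh j) 1 1 - (mm i * hh j) 0 1 * (mm i * hh j) 1 0

theorem chk : ∀ i < 18, dd i i ≠ 0 ∧ ((range 14).filter fun j => dd i j = 0).card = 10 := by
  decide +kernel

theorem upper {n : ℕ} (h14 : 14 ≤ n) (hn : n ≤ 18) (i : Fin n) : IsUnit (mm i * hh i) ∧
    ∑ j ∈ univ.erase i, (mm i * hh (j : Fin n)).rank + 10 ≤ 2 * (n - 1) := by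
  obtain ⟨h1, h2⟩ := chk i (lt_of_lt_of_le i.2 hn)
  refine ⟨?_, ?_⟩
  · rw [Matrix.isUnit_iff_isUnit_det, det_fin_two]
    exact isUnit_iff_ne_zero.2 h1
  · have h3 : 10 ≤ ((univ.erase i).filter fun j : Fin n => dd i j = 0).card := by
      rw [← h2]
      refine le_trans (card_le_card ?_)
        (card_image_le (f := fun j : Fin n => j.val))
      intro j hj
      obtain ⟨a, b⟩ := mem_filter.1 hj
      have a' := mem_range.1 a
      refine mem_image.2 ⟨⟨j, by omega⟩, ?_, rfl⟩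
      simp only [mem_filter, mem_erase, mem_univ, and_true]
      refine ⟨?_, b⟩
      intro h
      have : j = i.val := congrArg Fin.val h
      exact h1 (this ▸ b)
    have h4 : ∑ j ∈ univ.erase i, ((mm i * hh (j : Fin n)).rank + if dd i j = 0 then 1 else 0) ≤
        ∑ j ∈ univ.erase i, 2 := by
      refine sum_le_sum fun j _ => ?_
      split_ifs with h
      · have := upone (mm i * hh j) (by rw [det_fin_two]; exact h)
        omega
      · simpa using rk2 _
    rw [sum_add_distrib, ← card_filter, sum_const, card_erase_of_mem (mem_univ _), card_univ,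
      Fintype.card_fin, smul_eq_mul] at h4
    omega

end Pool.Agent.H.MP_e76747_lc
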